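import Pool.Agent.Results.MP_8ae193_an.BoundedLag

/-!
# MP_c782ad_an: bounded size

For a primitive matrix `A` over `ℕ` and every `N`, the matrices with at most `N` rows (primitive or not)
that are shift equivalent to `A` form finitely many strong shift equivalence classes. So the shift
equivalence class of `A` consists of finitely many strong shift equivalence classes iff the least sizes of
the matrices in these classes are bounded.
-/

set_option autoImplicit false

namespace Pool.Agent.Results.MP_c782ad_an.BoundedSize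

open Matrix

/-- The square matrices over `ℕ`, of any size. -/
abbrev Mat : Type := Σ n : ℕ, Matrix (Fin n) (Fin n) ℕ

/-- Elementary strong shift equivalence over `ℕ`: `X = R S`, `Y = S R`. -/
def Elem (X Y : Mat) : Prop :=
  ∃ R : Matrix (Fin X.1) (Fin Y.1) ℕ, ∃ S : Matrix (Fin Y.1) (Fin X.1) ℕ,
    X.2 = R * S ∧ Y.2 = S * R

/-- Strong shift equivalence over `ℕ`: a finite chain of elementary ones. -/
def SSE (X Y : Mat) : Prop := Relation.ReflTransGen Elem X Y

/-- Shift equivalence over `ℕ`. -/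
def SE (A B : Mat) : Prop := ∃ l, 0 < l ∧
  ∃ R : Matrix (Fin A.1) (Fin B.1) ℕ, ∃ S : Matrix (Fin B.1) (Fin A.1) ℕ,
    A.2 ^ l = R * S ∧ B.2 ^ l = S * R ∧ A.2 * R = R * B.2 ∧ S * A.2 = B.2 * S

/-- `A` is primitive. -/
def Primitive (A : Mat) : Prop := ∃ k, 1 ≤ k ∧ ∀ i j, 0 < (A.2 ^ k) i j

/-- The sum of the entries. -/
def total (A : Mat) : ℕ := ∑ i, ∑ j, A.2 i j

section
variable {n : ℕ}

theorem step {C : Matrix (Fin n) (Fin n) ℕ} {a b : ℕ} {i j x : Fin n} (h : (C ^ a) i j ≠ 0)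
    (h' : (C ^ b) j x ≠ 0) : (C ^ (a + b)) i x ≠ 0 := by
  rw [pow_add, Matrix.mul_apply]
  have h1 : (C ^ a) i j * (C ^ b) j x ≤ ∑ y, (C ^ a) i y * (C ^ b) y x :=
    Finset.single_le_sum (f := fun y => (C ^ a) i y * (C ^ b) y x) (fun _ _ => Nat.zero_le _)
      (Finset.mem_univ j)
  have h2 := Nat.mul_pos (Nat.pos_of_ne_zero h) (Nat.pos_of_ne_zero h')
  omega

/-- Reachable vertices can be reached by paths of length at most `n`. -/
theorem short (C : Matrix (Fin n) (Fin n) ℕ) (j : Fin n) :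
    ∀ p x, (C ^ p) j x ≠ 0 → ∃ p' ≤ n, (C ^ p') j x ≠ 0 := by
  classical
  let D : ℕ → Finset (Fin n) := fun t => Finset.univ.filter fun x => ∃ p ≤ t, (C ^ p) j x ≠ 0
  have hmem : ∀ t x, x ∈ D t ↔ ∃ p ≤ t, (C ^ p) j x ≠ 0 := fun t x => by simp [D]
  have hmono : ∀ t, D t ⊆ D (t + 1) := fun t x hx => by
    rw [hmem] at hx ⊢
    obtain ⟨p, hp, h⟩ := hx
    exact ⟨p, Nat.le_succ_of_le hp, h⟩
  have hj : ∀ t, j ∈ D t := fun t => (hmem t j).2 ⟨0, Nat.zero_le _, by simp⟩
  have key : ∀ t, t + 1 ≤ (D t).card ∨ ∀ p x, (C ^ p) j x ≠ 0 → x ∈ D t := by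
    intro t
    induction t with
    | zero => exact Or.inl (Finset.card_pos.2 ⟨j, hj 0⟩)
    | succ t ih =>
      rcases ih with ih | ih
      · by_cases hD : D (t + 1) = D t
        · right
          have hall : ∀ p x, (C ^ p) j x ≠ 0 → x ∈ D t := by
            intro p
            induction p with
            | zero =>
              intro x hx
              rw [pow_zero, Matrix.one_apply] at hx
              by_cases hjx : j = x
              · rw [← hjx]; exact hj t
              · rw [if_neg hjx] at hx; exact absurd rfl hx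
            | succ p ihp =>
              intro x hx
              rw [pow_succ, Matrix.mul_apply] at hx
              obtain ⟨y, -, hy⟩ := Finset.exists_ne_zero_of_sum_ne_zero hx
              obtain ⟨p', hp', h'⟩ := (hmem t y).1 (ihp y (left_ne_zero_of_mul hy))
              rw [← hD, hmem]
              refine ⟨p' + 1, Nat.succ_le_succ hp', step h' ?_⟩
              rw [pow_one]
              exact right_ne_zero_of_mul hy
          exact fun p x hx => hmono t (hall p x hx)
        · left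
          have : (D t).card < (D (t + 1)).card :=
            Finset.card_lt_card ((hmono t).ssubset_of_ne (Ne.symm hD))
          omega
      · exact Or.inr fun p x hx => hmono t (ih p x hx)
  rcases key n with h | h
  · have h2 : (D n).card ≤ n := by
      have := Finset.card_le_univ (D n)
      simpa using this
    omega
  · exact fun p x hx => (hmem n x).1 (h p x hx)

theorem diag_pow (C : Matrix (Fin n) (Fin n) ℕ) (i : Fin n) (a : ℕ) : ∀ t,
    ((C ^ a) i i) ^ t ≤ (C ^ (a * t)) i i := by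
  intro t
  induction t with
  | zero => simp
  | succ t ih =>
    rw [pow_succ, Nat.mul_succ, pow_add, Matrix.mul_apply]
    refine le_trans (Nat.mul_le_mul_right _ ih) ?_
    exact Finset.single_le_sum (f := fun y => (C ^ (a * t)) i y * (C ^ a) y i)
      (fun _ _ => Nat.zero_le _) (Finset.mem_univ i)

theorem total_pow (A : Matrix (Fin n) (Fin n) ℕ) : ∀ m,
    ∑ i, ∑ j, (A ^ (m + 1)) i j ≤ (∑ i, ∑ j, A i j) ^ (m + 1) := by
  intro m
  induction m with
  | zero => simp
  | succ m ih =>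
    rw [pow_succ A, pow_succ (∑ i, ∑ j, A i j)]
    have h1 : ∑ i, ∑ j, (A ^ (m + 1) * A) i j =
        ∑ x, (∑ i, (A ^ (m + 1)) i x) * (∑ j, A x j) := by
      calc ∑ i, ∑ j, (A ^ (m + 1) * A) i j = ∑ i, ∑ x, ∑ j, (A ^ (m + 1)) i x * A x j := by
            refine Finset.sum_congr rfl fun i _ => ?_
            simp only [Matrix.mul_apply]
            exact Finset.sum_comm
        _ = ∑ x, ∑ i, ∑ j, (A ^ (m + 1)) i x * A x j := Finset.sum_comm
        _ = _ := Finset.sum_congr rfl fun x _ => (Finset.sum_mul_sum _ _ _ _).symm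
    rw [h1]
    have h2 : ∑ x, (∑ i, (A ^ (m + 1)) i x) * (∑ j, A x j) ≤
        (∑ x, ∑ i, (A ^ (m + 1)) i x) * ∑ x, ∑ j, A x j := by
      rw [Finset.sum_mul]
      refine Finset.sum_le_sum fun x _ => Nat.mul_le_mul_left _ ?_
      exact Finset.single_le_sum (f := fun x => ∑ j, A x j) (fun _ _ => Nat.zero_le _)
        (Finset.mem_univ x)
    refine le_trans h2 (Nat.mul_le_mul_right _ ?_)
    rw [Finset.sum_comm]
    exact ih

end

/-- The entries of a matrix without zero rows and columns that is shift equivalent to a primitive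
matrix are bounded in terms of its size. -/
theorem entries {A C : Mat} (hA : Primitive A) (h : SE A C) (hr : ∀ i, ∃ j, C.2 i j ≠ 0)
    (hc : ∀ j, ∃ i, C.2 i j ≠ 0) : ∀ i j, C.2 i j ≤ total A ^ (C.1 + 1) := by
  obtain ⟨k, hk, hpos⟩ := hA
  obtain ⟨l, hl, R, S, h1, h2, h3, h4⟩ := h
  have hSA : ∀ q : ℕ, S * A.2 ^ q = C.2 ^ q * S := by
    intro q
    induction q with
    | zero => simp
    | succ q ih => rw [pow_succ, ← Matrix.mul_assoc, ih, Matrix.mul_assoc, h4, ← Matrix.mul_assoc,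
        ← pow_succ]
  have hSR : ∀ q : ℕ, C.2 ^ (q + l) = S * A.2 ^ q * R := by
    intro q
    rw [pow_add, h2, ← Matrix.mul_assoc, hSA]
  have hCpos : ∀ i j, (C.2 ^ (k + l)) i j ≠ 0 := by
    intro i j
    obtain ⟨b, hb⟩ := MP_8ae193_an.BoundedLag.row_pow hr l i
    obtain ⟨a, ha⟩ := MP_8ae193_an.BoundedLag.col_pow hc l j
    rw [h2, Matrix.mul_apply] at ha hb
    obtain ⟨x, -, hx⟩ := Finset.exists_ne_zero_of_sum_ne_zero hb
    obtain ⟨y, -, hy⟩ := Finset.exists_ne_zero_of_sum_ne_zero ha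
    have hx' := left_ne_zero_of_mul hx
    have hy' := right_ne_zero_of_mul hy
    rw [hSR, Matrix.mul_apply]
    have e1 : (S * A.2 ^ k) i y ≠ 0 := by
      rw [Matrix.mul_apply]
      have : S i x * (A.2 ^ k) x y ≤ ∑ z, S i z * (A.2 ^ k) z y :=
        Finset.single_le_sum (f := fun z => S i z * (A.2 ^ k) z y) (fun _ _ => Nat.zero_le _)
          (Finset.mem_univ x)
      have h5 := Nat.mul_pos (Nat.pos_of_ne_zero hx') (hpos x y)
      omega
    have h6 : (S * A.2 ^ k) i y * R y j ≤ ∑ z, (S * A.2 ^ k) i z * R z j :=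
      Finset.single_le_sum (f := fun z => (S * A.2 ^ k) i z * R z j) (fun _ _ => Nat.zero_le _)
        (Finset.mem_univ y)
    have h7 := Nat.mul_pos (Nat.pos_of_ne_zero e1) (Nat.pos_of_ne_zero hy')
    omega
  intro i j
  obtain ⟨p, hp, hpath⟩ := short C.2 j _ _ (hCpos j i)
  have g1 : C.2 i j ≤ (C.2 ^ (p + 1)) i i := by
    rw [pow_succ', Matrix.mul_apply]
    refine le_trans (Nat.le_mul_of_pos_right _ (Nat.pos_of_ne_zero hpath)) ?_
    exact Finset.single_le_sum (f := fun z => C.2 i z * (C.2 ^ p) z i) (fun _ _ => Nat.zero_le _)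
      (Finset.mem_univ j)
  have g2 : (C.2 i j) ^ l ≤ (C.2 ^ ((p + 1) * l)) i i :=
    le_trans (Nat.pow_le_pow_left g1 l) (diag_pow C.2 i (p + 1) l)
  have g3 : (C.2 ^ ((p + 1) * l)) i i ≤ (total A) ^ ((p + 1) * l) := by
    have e0 : (p + 1) * l = p * l + l := by ring
    have e1 : (C.2 ^ ((p + 1) * l)) i i ≤ (C.2 ^ ((p + 1) * l)).trace :=
      Finset.single_le_sum (f := fun z => (C.2 ^ ((p + 1) * l)) z z) (fun _ _ => Nat.zero_le _)
        (Finset.mem_univ i)
    have e2 : (C.2 ^ ((p + 1) * l)).trace = (A.2 ^ ((p + 1) * l)).trace := by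
      rw [e0, hSR, Matrix.trace_mul_comm, ← Matrix.mul_assoc, ← h1, pow_add, Matrix.trace_mul_comm]
    have e3 : (A.2 ^ ((p + 1) * l)).trace ≤ ∑ x, ∑ y, (A.2 ^ ((p + 1) * l)) x y :=
      Finset.sum_le_sum fun x _ => Finset.single_le_sum
        (f := fun y => (A.2 ^ ((p + 1) * l)) x y) (fun _ _ => Nat.zero_le _) (Finset.mem_univ x)
    obtain ⟨m, hm⟩ : ∃ m, (p + 1) * l = m + 1 :=
      ⟨(p + 1) * l - 1, by have := Nat.mul_pos (Nat.succ_pos p) hl; omega⟩
    rw [e2] at e1
    refine le_trans e1 (le_trans e3 ?_)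
    rw [hm]
    exact total_pow A.2 m
  rw [pow_mul (total A)] at g3
  have g4 : C.2 i j ≤ total A ^ (p + 1) :=
    (Nat.pow_le_pow_iff_left hl.ne').1 (le_trans g2 g3)
  rcases Nat.eq_zero_or_pos (total A) with h0 | h0
  · rw [h0, zero_pow (Nat.succ_ne_zero p)] at g4
    omega
  · exact le_trans g4 (Nat.pow_le_pow_right h0 (by omega))

theorem bounded_size {A : Mat} (hA : Primitive A) (B : Mat) (h : SE A B) :
    ∃ C : Mat, SSE B C ∧ C.1 ≤ B.1 ∧ ∀ i j, C.2 i j ≤ total A ^ (C.1 + 1) := by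
  obtain ⟨k, f, hf, hs, hr, hc⟩ := MP_8ae193_an.BoundedLag.trim B.1 B.2
  have hs' : SSE B ⟨k, B.2.submatrix f f⟩ := hs
  have hse : SE A ⟨k, B.2.submatrix f f⟩ := MP_8ae193_an.BoundedLag.se_sse h hs
  refine ⟨⟨k, B.2.submatrix f f⟩, hs', ?_, entries hA hse hr hc⟩
  simpa using Fintype.card_le_of_injective f hf

theorem result (A : Mat) (hA : Primitive A) :
    (∀ B : Mat, SE A B →
      ∃ C : Mat, SSE B C ∧ C.1 ≤ B.1 ∧ ∀ i j, C.2 i j ≤ total A ^ (C.1 + 1)) ∧
    (∀ N : ℕ, ∃ F : List Mat, ∀ B : Mat, SE A B → B.1 ≤ N → ∃ C ∈ F, SSE B C) ∧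
    ((∃ F : List Mat, ∀ B : Mat, SE A B → ∃ C ∈ F, SSE B C) ↔
      ∃ N : ℕ, ∀ B : Mat, SE A B → ∃ C : Mat, SSE B C ∧ C.1 ≤ N) := by
  have part1 : ∀ N : ℕ, ∃ F : List Mat, ∀ B : Mat, SE A B → B.1 ≤ N → ∃ C ∈ F, SSE B C := by
    intro N
    have hfin := MP_8ae193_an.BoundedLag.finite_box N ((total A + 1) ^ (N + 1))
    refine ⟨hfin.toFinset.toList, fun B hB hN => ?_⟩
    obtain ⟨C, hs, h1, h2⟩ := bounded_size hA B hB
    refine ⟨C, ?_, hs⟩
    rw [Finset.mem_toList, Set.Finite.mem_toFinset]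
    refine ⟨le_trans h1 hN, fun i j => le_trans (h2 i j) ?_⟩
    exact le_trans (Nat.pow_le_pow_left (Nat.le_succ _) _)
      (Nat.pow_le_pow_right (Nat.succ_pos _) (by omega))
  refine ⟨bounded_size hA, part1, ?_, ?_⟩
  · rintro ⟨F, hF⟩
    have key : ∀ F : List Mat, ∃ N : ℕ, ∀ C ∈ F, C.1 ≤ N := by
      intro F
      induction F with
      | nil => exact ⟨0, fun C hC => absurd hC (by simp)⟩
      | cons D F ih =>
        obtain ⟨N, hN⟩ := ih
        refine ⟨max N D.1, fun C hC => ?_⟩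
        rcases List.mem_cons.1 hC with rfl | hC
        · exact le_max_right _ _
        · exact le_trans (hN C hC) (le_max_left _ _)
    obtain ⟨N, hN⟩ := key F
    refine ⟨N, fun B hB => ?_⟩
    obtain ⟨C, hC, hs⟩ := hF B hB
    exact ⟨C, hs, hN C hC⟩
  · rintro ⟨N, hN⟩
    obtain ⟨F, hF⟩ := part1 N
    refine ⟨F, fun B hB => ?_⟩
    obtain ⟨C, hs, hC⟩ := hN B hB
    have hse : SE A C := MP_8ae193_an.BoundedLag.se_sse hB hs
    obtain ⟨D, hD, hs'⟩ := hF C hse hC
    exact ⟨D, hD, Relation.ReflTransGen.trans hs hs'⟩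

end Pool.Agent.Results.MP_c782ad_an.BoundedSize
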